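import Pool.Agent.MP_077ac3_nt.H18.Defs

set_option autoImplicit false

/-!
The product form of the Subspace Theorem along a sequence, deduced from the parametric form.
-/

namespace Pool.Agent.MP_077ac3_nt.H88

open Filter Topology
open Pool.Agent.MP_077ac3_nt.H18

/-- A sequence that is bounded along an ultrafilter converges along it. -/
theorem exists_lim (U : Ultrafilter ℕ) (f : ℕ → ℝ) (C : ℝ)
    (h : ∀ᶠ m in (U : Filter ℕ), |f m| ≤ C) : ∃ a : ℝ, Tendsto f (U : Filter ℕ) (𝓝 a) := by
  have hc : IsCompact (Set.Icc (-C) C) := isCompact_Icc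
  have hle : ((U.map f : Ultrafilter ℝ) : Filter ℝ) ≤ 𝓟 (Set.Icc (-C) C) := by
    rw [le_principal_iff, Ultrafilter.coe_map, mem_map]
    filter_upwards [h] with m hm
    exact abs_le.mp hm
  obtain ⟨a, -, ha⟩ := hc.ultrafilter_le_nhds (U.map f) hle
  exact ⟨a, ha⟩

/-- A divisor of a power of `b` is the product of its prime powers over the primes of `b`. -/
theorem prod_factorization (b d N : ℕ) (hb : b ≠ 0) (hd : d ∣ b ^ N) :
    ∏ p : b.primeFactors, (p : ℕ) ^ d.factorization p = d := by
  have hd0 : d ≠ 0 := ne_zero_of_dvd_ne_zero (pow_ne_zero N hb) hd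
  have hsub : d.primeFactors ⊆ b.primeFactors := by
    intro p hp
    have hpp := Nat.prime_of_mem_primeFactors hp
    have hpd := Nat.dvd_of_mem_primeFactors hp
    exact Nat.mem_primeFactors.mpr ⟨hpp, hpp.dvd_of_dvd_pow (hpd.trans hd), hb⟩
  rw [Finset.prod_coe_sort b.primeFactors (fun p => p ^ d.factorization p)]
  conv_rhs => rw [← Nat.prod_factorization_pow_eq_self hd0]
  rw [Finsupp.prod, Nat.support_factorization]
  symm
  refine Finset.prod_subset hsub ?_
  intro p _ hp
  have : d.factorization p = 0 := by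
    rw [← Nat.support_factorization] at hp
    exact Finsupp.notMem_support_iff.mp hp
  rw [this, pow_zero]

theorem factorization_le (b d N p : ℕ) (hb : b ≠ 0) (hd : d ∣ b ^ N) :
    d.factorization p ≤ N * b := by
  have hd0 : d ≠ 0 := ne_zero_of_dvd_ne_zero (pow_ne_zero N hb) hd
  have h1 := (Nat.factorization_le_iff_dvd hd0 (pow_ne_zero N hb)).mpr hd p
  rw [Nat.factorization_pow] at h1
  simp only [Finsupp.smul_apply, smul_eq_mul] at h1
  exact h1.trans (Nat.mul_le_mul_left N (Nat.factorization_lt p hb).le)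

theorem seq_of (H : SubspaceStmt) : SeqStmt := by
  classical
  intro n b K L ε hb halg hdet hε U hU x ℓ d hyp
  have hb0 : b ≠ 0 := by omega
  have hpos : ∀ᶠ m in (U : Filter ℕ), 1 ≤ m := hU (eventually_ge_atTop 1)
  -- limits of the normalised sizes
  have hl : ∀ i, ∃ a : ℝ, Tendsto (fun m : ℕ => Real.log (ℓ m i) / m) (U : Filter ℕ) (𝓝 a) := by
    intro i
    refine exists_lim U _ K ?_
    filter_upwards [hyp, hpos] with m hm h1
    have hm0 : (0 : ℝ) < m := by exact_mod_cast h1
    rw [abs_div, abs_of_pos hm0, div_le_iff₀ hm0]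
    exact (hm.1 i).2.2.1
  have hv : ∀ i (p : b.primeFactors), ∃ a : ℝ,
      Tendsto (fun m : ℕ => (((d m i).factorization p : ℕ) : ℝ) / m) (U : Filter ℕ) (𝓝 a) := by
    intro i p
    refine exists_lim U _ (K * b) ?_
    filter_upwards [hyp, hpos] with m hm h1
    have hm0 : (0 : ℝ) < m := by exact_mod_cast h1
    rw [abs_div, abs_of_pos hm0, div_le_iff₀ hm0, abs_of_nonneg (Nat.cast_nonneg _)]
    have := factorization_le b (d m i) (K * m) p hb0 (hm.1 i).2.2.2.2
    have h2 : (((d m i).factorization p : ℕ) : ℝ) ≤ ((K * m * b : ℕ) : ℝ) := by exact_mod_cast this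
    push_cast at h2
    linarith
  choose lam hlam using hl
  choose nu hnu using hv
  set G : ℝ := ∑ p : b.primeFactors, Real.log ((p : ℕ) : ℝ) with hG
  have hlogp : ∀ p : b.primeFactors, 0 ≤ Real.log ((p : ℕ) : ℝ) := fun p =>
    Real.log_natCast_nonneg _
  have hG0 : 0 ≤ G := Finset.sum_nonneg fun p _ => hlogp p
  -- the limit inequality
  have hlim : ∑ i, lam i + ε ≤ ∑ i, ∑ p : b.primeFactors, nu i p * Real.log ((p : ℕ) : ℝ) := by
    have t1 : Tendsto (fun m : ℕ => ∑ i, Real.log (ℓ m i) / m + ε) (U : Filter ℕ)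
        (𝓝 (∑ i, lam i + ε)) :=
      (tendsto_finsetSum _ fun i _ => hlam i).add_const ε
    have t2 : Tendsto (fun m : ℕ => ∑ i, ∑ p : b.primeFactors,
        (((d m i).factorization p : ℕ) : ℝ) / m * Real.log ((p : ℕ) : ℝ)) (U : Filter ℕ)
        (𝓝 (∑ i, ∑ p : b.primeFactors, nu i p * Real.log ((p : ℕ) : ℝ))) :=
      tendsto_finsetSum _ fun i _ => tendsto_finsetSum _ fun p _ => (hnu i p).mul_const _
    refine le_of_tendsto_of_tendsto t1 t2 ?_
    filter_upwards [hyp, hpos] with m hm h1
    have hm0 : (0 : ℝ) < m := by exact_mod_cast h1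
    have hlpos : ∀ i, 0 < ℓ m i := fun i => (hm.1 i).2.1
    have hprod : 0 < ∏ i, ℓ m i := Finset.prod_pos fun i _ => hlpos i
    have h2 := Real.log_le_log (mul_pos hprod (Real.exp_pos _)) hm.2
    have hd0 : ∀ i, d m i ≠ 0 := fun i =>
      ne_zero_of_dvd_ne_zero (pow_ne_zero _ hb0) (hm.1 i).2.2.2.2
    rw [Real.log_mul hprod.ne' (Real.exp_pos _).ne', Real.log_exp,
      Real.log_prod (fun i _ => (hlpos i).ne'),
      Real.log_prod (fun i _ => by exact_mod_cast hd0 i)] at h2
    have h3 : ∀ i, Real.log (d m i : ℝ) = ∑ p : b.primeFactors,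
        (((d m i).factorization p : ℕ) : ℝ) * Real.log ((p : ℕ) : ℝ) := by
      intro i
      conv_lhs => rw [← prod_factorization b (d m i) (K * m) hb0 (hm.1 i).2.2.2.2]
      push_cast
      rw [Real.log_prod]
      · exact Finset.sum_congr rfl fun p _ => Real.log_pow _ _
      · intro p _
        have := (Nat.prime_of_mem_primeFactors p.2).pos
        positivity
    simp only [h3] at h2
    have e1 : ∑ i, Real.log (ℓ m i) / m + ε = (∑ i, Real.log (ℓ m i) + ε * m) / m := by
      rw [add_div, Finset.sum_div, mul_div_assoc, div_self hm0.ne', mul_one]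
    have e2 : ∑ i, ∑ p : b.primeFactors,
        (((d m i).factorization p : ℕ) : ℝ) / m * Real.log ((p : ℕ) : ℝ) =
        (∑ i, ∑ p : b.primeFactors,
          (((d m i).factorization p : ℕ) : ℝ) * Real.log ((p : ℕ) : ℝ)) / m := by
      rw [Finset.sum_div]
      refine Finset.sum_congr rfl fun i _ => ?_
      rw [Finset.sum_div]
      exact Finset.sum_congr rfl fun p _ => by ring
    show ∑ i, Real.log (ℓ m i) / m + ε ≤ _
    rw [e1, e2]
    exact div_le_div_of_nonneg_right h2 hm0.le
  set η : ℝ := ε / (2 * ((n + 1) * (1 + G))) with hη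
  have hden : (0 : ℝ) < (n + 1) * (1 + G) := by positivity
  have hη0 : 0 < η := by positivity
  have hηε : η * (n * (1 + G)) < ε := by
    have h1 : η * ((n + 1) * (1 + G)) = ε / 2 := by rw [hη]; field_simp
    have h2 : η * (n * (1 + G)) ≤ η * ((n + 1) * (1 + G)) := by
      apply mul_le_mul_of_nonneg_left _ hη0.le
      nlinarith
    linarith
  have hsum : ∑ i, (lam i + η) <
      ∑ i, ∑ p : b.primeFactors, max 0 (nu i p - η) * Real.log ((p : ℕ) : ℝ) := by
    have h1 : ∑ i, ∑ p : b.primeFactors, (nu i p - η) * Real.log ((p : ℕ) : ℝ) ≤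
        ∑ i, ∑ p : b.primeFactors, max 0 (nu i p - η) * Real.log ((p : ℕ) : ℝ) :=
      Finset.sum_le_sum fun i _ => Finset.sum_le_sum fun p _ =>
        mul_le_mul_of_nonneg_right (le_max_right _ _) (hlogp p)
    have h2 : ∑ i, ∑ p : b.primeFactors, (nu i p - η) * Real.log ((p : ℕ) : ℝ) =
        ∑ i, ∑ p : b.primeFactors, nu i p * Real.log ((p : ℕ) : ℝ) - n * (η * G) := by
      have : ∀ i, ∑ p : b.primeFactors, (nu i p - η) * Real.log ((p : ℕ) : ℝ) =
          ∑ p : b.primeFactors, nu i p * Real.log ((p : ℕ) : ℝ) - η * G := by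
        intro i
        rw [hG, Finset.mul_sum, ← Finset.sum_sub_distrib]
        exact Finset.sum_congr rfl fun p _ => by ring
      simp only [this, Finset.sum_sub_distrib, Finset.sum_const, Finset.card_univ,
        Fintype.card_fin, nsmul_eq_mul]
    have h3 : ∑ i, (lam i + η) = ∑ i, lam i + n * η := by
      simp only [Finset.sum_add_distrib, Finset.sum_const, Finset.card_univ,
        Fintype.card_fin, nsmul_eq_mul]
    nlinarith
  have hU' : ((U.map (Nat.cast : ℕ → ℝ) : Ultrafilter ℝ) : Filter ℝ) ≤ atTop := by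
    rw [Ultrafilter.coe_map]
    exact (tendsto_natCast_atTop_atTop (R := ℝ)).mono_left hU
  obtain ⟨w, hw0, hw⟩ := H n b.primeFactors L (fun p => (p : ℕ)) (fun i => lam i + η)
    (fun i p => max 0 (nu i p - η)) halg hdet
    (fun p => (Nat.prime_of_mem_primeFactors p.2).pos)
    (fun p p' hpp => (Nat.coprime_primes (Nat.prime_of_mem_primeFactors p.2)
      (Nat.prime_of_mem_primeFactors p'.2)).mpr fun h => hpp (Subtype.ext h))
    (fun i p => le_max_left _ _) hsum (U.map Nat.cast) hU'
  refine ⟨w, hw0, ?_⟩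
  rw [Ultrafilter.coe_map, eventually_map] at hw
  have hA : ∀ᶠ m in (U : Filter ℕ), ∀ i, Real.log (ℓ m i) / m < lam i + η :=
    eventually_all.mpr fun i => (hlam i).eventually (gt_mem_nhds (by linarith))
  have hB : ∀ᶠ m in (U : Filter ℕ), ∀ i, ∀ p : b.primeFactors,
      nu i p - η < (((d m i).factorization p : ℕ) : ℝ) / m :=
    eventually_all.mpr fun i => eventually_all.mpr fun p =>
      (hnu i p).eventually (lt_mem_nhds (by linarith))
  filter_upwards [hw, hA, hB, hyp, hpos] with m hm ha hb' hy h1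
  have hm0 : (0 : ℝ) < m := by exact_mod_cast h1
  refine hm (x m) (fun i => ?_) (fun i => ?_)
  · refine (hy.1 i).1.trans ?_
    have := ha i
    rw [div_lt_iff₀ hm0] at this
    rw [← Real.exp_log (hy.1 i).2.1]
    exact Real.exp_le_exp.mpr this.le
  · refine dvd_trans ?_ (hy.1 i).2.2.2.1
    conv_rhs => rw [← prod_factorization b (d m i) (K * m) hb0 (hy.1 i).2.2.2.2]
    unfold dv
    push_cast
    refine Finset.prod_dvd_prod_of_dvd _ _ fun p _ => pow_dvd_pow _ ?_
    rw [Nat.ceil_le]
    have := hb' i p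
    rw [lt_div_iff₀ hm0] at this
    rcases le_total 0 (nu i p - η) with h | h
    · rw [max_eq_right h]; exact this.le
    · rw [max_eq_left h, zero_mul]; exact Nat.cast_nonneg _

end Pool.Agent.MP_077ac3_nt.H88
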