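import Pool.Agent.MP_077ac3_nt.H18.Defs

set_option autoImplicit false

/-!
The application of the Subspace Theorem (product form along a sequence) to the common divisors
of `[α b^(k+m)] [β b^m] + 1` and `b^m`.
-/

namespace Pool.Agent.MP_077ac3_nt.H88

open Filter Topology
open Pool.Agent.MP_077ac3_nt.H18

/-- The product form with sizes compared to powers of `b`. -/
theorem seq_pow (H : SeqStmt) (n b N : ℕ) (L : Matrix (Fin n) (Fin n) ℝ) (ε : ℝ) (hb : 2 ≤ b)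
    (halg : ∀ i j, IsAlgebraic ℚ (L i j)) (hdet : L.det ≠ 0) (hε : 0 < ε)
    (U : Ultrafilter ℕ) (hU : (U : Filter ℕ) ≤ atTop)
    (x : ℕ → Fin n → ℤ) (ℓ : ℕ → Fin n → ℝ) (d : ℕ → Fin n → ℕ)
    (hyp : ∀ᶠ m : ℕ in (U : Filter ℕ),
      (∀ i, |∑ j, L i j * (x m j : ℝ)| ≤ ℓ m i ∧ ((b : ℝ) ^ (N * m))⁻¹ ≤ ℓ m i ∧
        ℓ m i ≤ (b : ℝ) ^ (N * m) ∧ (d m i : ℤ) ∣ x m i ∧ d m i ∣ b ^ (N * m)) ∧
      (∏ i, ℓ m i) * Real.exp (ε * m) ≤ ∏ i, (d m i : ℝ)) :
    ∃ w : Fin n → ℤ, w ≠ 0 ∧ ∀ᶠ m : ℕ in (U : Filter ℕ), ∑ i, w i * x m i = 0 := by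
  refine H n b (N * b) L ε hb halg hdet hε U hU x ℓ d ?_
  filter_upwards [hyp] with m hm
  refine ⟨fun i => ?_, hm.2⟩
  obtain ⟨h1, h2, h3, h4, h5⟩ := hm.1 i
  have hb0 : (0 : ℝ) < b := by exact_mod_cast (by omega : 0 < b)
  have hP : (0 : ℝ) < (b : ℝ) ^ (N * m) := pow_pos hb0 _
  have hl : 0 < ℓ m i := (inv_pos.mpr hP).trans_le h2
  refine ⟨h1, hl, ?_, h4, h5.trans (pow_dvd_pow _ ?_)⟩
  · have e1 := Real.log_le_log (inv_pos.mpr hP) h2
    have e2 := Real.log_le_log hl h3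
    rw [Real.log_inv, Real.log_pow] at e1
    rw [Real.log_pow] at e2
    have e3 : Real.log b ≤ b := (Real.log_le_sub_one_of_pos hb0).trans (by linarith)
    have e4 : ((N * m : ℕ) : ℝ) * Real.log b ≤ ((N * b : ℕ) : ℝ) * m := by
      have := mul_le_mul_of_nonneg_left e3 (Nat.cast_nonneg (α := ℝ) (N * m))
      push_cast at this ⊢
      linarith
    rw [abs_le]
    constructor <;> linarith
  · calc N * m = N * m * 1 := (mul_one _).symm
      _ ≤ N * m * b := Nat.mul_le_mul_left _ (by omega)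
      _ = N * b * m := by ring

theorem ev_exp (C δ r : ℝ) (hr : Real.exp δ < r) :
    ∀ᶠ m : ℕ in atTop, C * Real.exp (δ * m) ≤ r ^ m := by
  have hr0 : 0 < r := (Real.exp_pos δ).trans hr
  have h1 : 1 < r / Real.exp δ := by rw [one_lt_div (Real.exp_pos δ)]; exact hr
  filter_upwards [(tendsto_pow_atTop_atTop_of_one_lt h1).eventually_ge_atTop C] with m hm
  rw [div_pow, le_div_iff₀ (pow_pos (Real.exp_pos δ) m), ← Real.exp_nat_mul, mul_comm (m : ℝ)]
    at hm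
  exact hm

theorem zero_of_small {b : ℕ} (hb : 2 ≤ b) (U : Ultrafilter ℕ) (hU : (U : Filter ℕ) ≤ atTop)
    (r C : ℝ) (h : ∀ᶠ m : ℕ in (U : Filter ℕ), |r| * (b : ℝ) ^ m ≤ C) : r = 0 := by
  by_contra hr
  have hr' : 0 < |r| := abs_pos.mpr hr
  have hb1 : (1 : ℝ) < b := by exact_mod_cast (by omega : 1 < b)
  have h2 : ∀ᶠ m : ℕ in (U : Filter ℕ), C / |r| < (b : ℝ) ^ m :=
    hU ((tendsto_pow_atTop_atTop_of_one_lt hb1).eventually_gt_atTop (C / |r|))
  obtain ⟨m, hm1, hm2⟩ := (h.and h2).exists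
  rw [div_lt_iff₀ hr'] at hm2
  linarith

theorem irr_rel {α : ℝ} (hα : Irrational α) (c c' : ℤ) (h : (c : ℝ) * α + c' = 0) :
    c = 0 ∧ c' = 0 := by
  by_cases hc : c = 0
  · subst hc
    refine ⟨rfl, ?_⟩
    simpa using h
  · exfalso
    exact ((hα.intCast_mul hc).add_intCast c').ne_zero h

/-- No nontrivial relation between `[α u]` and `u`. -/
theorem no_rel {b : ℕ} (hb : 2 ≤ b) (U : Ultrafilter ℕ) (hU : (U : Filter ℕ) ≤ atTop)
    {α : ℝ} (hα : Irrational α) (k : ℕ → ℕ) (c c' : ℤ)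
    (h : ∀ᶠ m : ℕ in (U : Filter ℕ),
      c * ⌊α * (b : ℝ) ^ (k m + m)⌋ + c' * (b : ℤ) ^ (k m + m) = 0) : c = 0 ∧ c' = 0 := by
  refine irr_rel hα c c' (zero_of_small hb U hU _ |(c : ℝ)| ?_)
  filter_upwards [h] with m hm
  have hb1 : (1 : ℝ) ≤ b := by exact_mod_cast (by omega : 1 ≤ b)
  have hm' : (c : ℝ) * (⌊α * (b : ℝ) ^ (k m + m)⌋ : ℤ) + c' * (b : ℝ) ^ (k m + m) = 0 := by
    exact_mod_cast hm
  set u : ℝ := (b : ℝ) ^ (k m + m) with hu
  have hs0 := Int.fract_nonneg (α * u)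
  have hs1 := (Int.fract_lt_one (α * u)).le
  have e : ((c : ℝ) * α + c') * u = c * Int.fract (α * u) := by
    rw [Int.fract]; linarith
  have hu0 : 0 < u := by positivity
  calc |(c : ℝ) * α + c'| * (b : ℝ) ^ m ≤ |(c : ℝ) * α + c'| * u :=
        mul_le_mul_of_nonneg_left (pow_le_pow_right₀ hb1 (by omega)) (abs_nonneg _)
    _ = |((c : ℝ) * α + c') * u| := by rw [abs_mul, abs_of_pos hu0]
    _ = |(c : ℝ)| * Int.fract (α * u) := by rw [e, abs_mul, abs_of_nonneg hs0]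
    _ ≤ |(c : ℝ)| := mul_le_of_le_one_right (abs_nonneg _) hs1

theorem pw_bounds {b : ℕ} (hb : 2 ≤ b) {j M : ℕ} (h : j ≤ M) :
    ((b : ℝ) ^ M)⁻¹ ≤ (b : ℝ) ^ j ∧ (b : ℝ) ^ j ≤ (b : ℝ) ^ M := by
  have hb1 : (1 : ℝ) ≤ b := by exact_mod_cast (by omega : 1 ≤ b)
  exact ⟨(inv_le_one_of_one_le₀ (one_le_pow₀ hb1)).trans (one_le_pow₀ hb1),
    pow_le_pow_right₀ hb1 h⟩

theorem two_bounds {b : ℕ} (hb : 2 ≤ b) {M : ℕ} (h : 1 ≤ M) :
    ((b : ℝ) ^ M)⁻¹ ≤ 2 ∧ (2 : ℝ) ≤ (b : ℝ) ^ M := by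
  have hb1 : (1 : ℝ) ≤ b := by exact_mod_cast (by omega : 1 ≤ b)
  have hb2 : (2 : ℝ) ≤ b := by exact_mod_cast hb
  refine ⟨(inv_le_one_of_one_le₀ (one_le_pow₀ hb1)).trans (by norm_num), hb2.trans ?_⟩
  simpa using pow_le_pow_right₀ hb1 h

theorem small_bounds {b : ℕ} (hb : 2 ≤ b) {m M : ℕ} (h : m ≤ M) {C : ℝ} (hC : 1 ≤ C)
    (hm : C * Real.exp (1 / 2 * m) ≤ (b : ℝ) ^ m) :
    ((b : ℝ) ^ M)⁻¹ ≤ C / (b : ℝ) ^ m ∧ C / (b : ℝ) ^ m ≤ (b : ℝ) ^ M := by
  have hb1 : (1 : ℝ) ≤ b := by exact_mod_cast (by omega : 1 ≤ b)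
  have hv : (0 : ℝ) < (b : ℝ) ^ m := by positivity
  constructor
  · calc ((b : ℝ) ^ M)⁻¹ ≤ ((b : ℝ) ^ m)⁻¹ := inv_anti₀ hv (pow_le_pow_right₀ hb1 h)
      _ = 1 / (b : ℝ) ^ m := (one_div _).symm
      _ ≤ C / (b : ℝ) ^ m := div_le_div_of_nonneg_right hC hv.le
  · refine le_trans ?_ (one_le_pow₀ hb1)
    rw [div_le_one hv]
    have : (1 : ℝ) ≤ Real.exp (1 / 2 * m) := Real.one_le_exp (by positivity)
    nlinarith

theorem ev_half {b : ℕ} (hb : 2 ≤ b) (C : ℝ) :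
    ∀ᶠ m : ℕ in atTop, C * Real.exp (1 / 2 * m) ≤ (b : ℝ) ^ m := by
  refine ev_exp C (1 / 2) b ?_
  have hb2 : (2 : ℝ) ≤ b := by exact_mod_cast hb
  refine lt_of_lt_of_le ?_ hb2
  have h1 := Real.log_two_gt_d9
  exact (Real.lt_log_iff_exp_lt (by norm_num)).mp (by linarith)

section main

variable (H : SeqStmt) {b : ℕ} (hb : 2 ≤ b) (U : Ultrafilter ℕ) (hU : (U : Filter ℕ) ≤ atTop)
  {α β : ℝ} (hα : Irrational α) (aα : IsAlgebraic ℚ α)
  (aβ : IsAlgebraic ℚ β) (k : ℕ → ℕ) (N : ℕ)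
  (hk : ∀ᶠ m : ℕ in (U : Filter ℕ), 1 ≤ m ∧ k m + 2 * m ≤ N * m)

include H hb hU aα aβ hk in
/-- First use of the Subspace Theorem. -/
theorem step1 (δ : ℝ) (hδ : 0 < δ)
    (hg : ∀ᶠ m : ℕ in (U : Filter ℕ), 2 * Real.exp (δ * m) ≤
      ((Int.gcd (⌊α * (b : ℝ) ^ (k m + m)⌋ * ⌊β * (b : ℝ) ^ m⌋ + 1) ((b : ℤ) ^ m) : ℕ) : ℝ)) :
    ∃ a0 a1 a2 a3 : ℤ, ¬ (a0 = 0 ∧ a1 = 0 ∧ a2 = 0 ∧ a3 = 0) ∧ ∀ᶠ m : ℕ in (U : Filter ℕ),
      a0 * (⌊α * (b : ℝ) ^ (k m + m)⌋ * ⌊β * (b : ℝ) ^ m⌋ + 1) +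
        a1 * (⌊α * (b : ℝ) ^ (k m + m)⌋ * (b : ℤ) ^ m) +
        a2 * (⌊β * (b : ℝ) ^ m⌋ * (b : ℤ) ^ (k m + m)) +
        a3 * ((b : ℤ) ^ (k m + m) * (b : ℤ) ^ m) = 0 := by
  refine Exists.elim (seq_pow H 4 b N
    !![1, -β, -α, α * β; 0, 1, 0, -α; 0, 0, 1, -β; 0, 0, 0, 1] δ hb ?_ ?_ hδ U hU
    (fun m => ![⌊α * (b : ℝ) ^ (k m + m)⌋ * ⌊β * (b : ℝ) ^ m⌋ + 1,
      ⌊α * (b : ℝ) ^ (k m + m)⌋ * (b : ℤ) ^ m, ⌊β * (b : ℝ) ^ m⌋ * (b : ℤ) ^ (k m + m),
      (b : ℤ) ^ (k m + m) * (b : ℤ) ^ m])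
    (fun m => ![2, (b : ℝ) ^ m, (b : ℝ) ^ (k m + m), (b : ℝ) ^ (k m + m + m)])
    (fun m => ![Int.gcd (⌊α * (b : ℝ) ^ (k m + m)⌋ * ⌊β * (b : ℝ) ^ m⌋ + 1) ((b : ℤ) ^ m),
      b ^ m, b ^ (k m + m), b ^ (k m + m + m)]) ?_) fun w hh => ?_
  rotate_right
  · obtain ⟨hw0, hw⟩ := hh
    refine ⟨w 0, w 1, w 2, w 3, fun h => hw0 ?_, ?_⟩
    · funext i
      fin_cases i
      exacts [h.1, h.2.1, h.2.2.1, h.2.2.2]
    · filter_upwards [hw] with m hm
      simpa [Fin.sum_univ_four] using hm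
  · intro i j
    fin_cases i <;> fin_cases j <;>
      first
        | exact isAlgebraic_one
        | exact isAlgebraic_zero
        | exact aα.neg
        | exact aβ.neg
        | exact aα.mul aβ
  · simp [Matrix.det_succ_column_zero, Fin.sum_univ_succ]
  · filter_upwards [hk, hg] with m hm hgm
    obtain ⟨hm1, hm2⟩ := hm
    have hb0 : (0 : ℝ) < b := by exact_mod_cast (by omega : 0 < b)
    have hs0 := Int.fract_nonneg (α * (b : ℝ) ^ (k m + m))
    have hs1 := (Int.fract_lt_one (α * (b : ℝ) ^ (k m + m))).le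
    have ht0 := Int.fract_nonneg (β * (b : ℝ) ^ m)
    have ht1 := (Int.fract_lt_one (β * (b : ℝ) ^ m)).le
    have ex : ((⌊α * (b : ℝ) ^ (k m + m)⌋ : ℤ) : ℝ) =
        α * (b : ℝ) ^ (k m + m) - Int.fract (α * (b : ℝ) ^ (k m + m)) := by rw [Int.fract]; ring
    have ey : ((⌊β * (b : ℝ) ^ m⌋ : ℤ) : ℝ) =
        β * (b : ℝ) ^ m - Int.fract (β * (b : ℝ) ^ m) := by rw [Int.fract]; ring
    have hu : (0 : ℝ) < (b : ℝ) ^ (k m + m) := by positivity
    have hv : (0 : ℝ) < (b : ℝ) ^ m := by positivity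
    have huv : (b : ℝ) ^ (k m + m + m) = (b : ℝ) ^ (k m + m) * (b : ℝ) ^ m := pow_add _ _ _
    constructor
    · intro i
      fin_cases i
      · refine ⟨?_, (two_bounds hb (by omega)).1, (two_bounds hb (by omega)).2,
          Int.gcd_dvd_left _ _, ?_⟩
        · simp only [Fin.sum_univ_four]
          simp only [Fin.zero_eta, Matrix.of_apply, Matrix.cons_val', Matrix.cons_val_zero,
            Matrix.cons_val_one, Matrix.cons_val]
          push_cast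
          rw [ex, ey]
          set s := Int.fract (α * (b : ℝ) ^ (k m + m))
          set t := Int.fract (β * (b : ℝ) ^ m)
          have : s * t ≤ 1 := mul_le_one₀ hs1 ht0 ht1
          have : 0 ≤ s * t := mul_nonneg hs0 ht0
          rw [abs_le]
          constructor <;> nlinarith
        · have h1 : ((Int.gcd (⌊α * (b : ℝ) ^ (k m + m)⌋ * ⌊β * (b : ℝ) ^ m⌋ + 1)
              ((b : ℤ) ^ m) : ℕ) : ℤ) ∣ ((b ^ m : ℕ) : ℤ) := by
            push_cast
            exact Int.gcd_dvd_right _ _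
          exact (Int.natCast_dvd_natCast.mp h1).trans (pow_dvd_pow _ (by omega))
      · refine ⟨?_, (pw_bounds hb (by omega)).1, (pw_bounds hb (by omega)).2, ?_,
          pow_dvd_pow _ (by omega)⟩
        · simp only [Fin.sum_univ_four]
          simp only [Fin.mk_one, Matrix.of_apply, Matrix.cons_val', Matrix.cons_val_zero,
            Matrix.cons_val_one, Matrix.cons_val]
          push_cast
          rw [ex]
          set s := Int.fract (α * (b : ℝ) ^ (k m + m))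
          rw [abs_le]
          constructor <;> nlinarith
        · simp
      · refine ⟨?_, (pw_bounds hb (by omega)).1, (pw_bounds hb (by omega)).2, ?_,
          pow_dvd_pow _ (by omega)⟩
        · simp only [Fin.sum_univ_four]
          simp only [Fin.reduceFinMk, Matrix.of_apply, Matrix.cons_val', Matrix.cons_val_zero,
            Matrix.cons_val_one, Matrix.cons_val]
          push_cast
          rw [ey]
          set t := Int.fract (β * (b : ℝ) ^ m)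
          rw [abs_le]
          constructor <;> nlinarith
        · simp
      · refine ⟨?_, (pw_bounds hb (by omega)).1, (pw_bounds hb (by omega)).2, ?_,
          pow_dvd_pow _ (by omega)⟩
        · simp only [Fin.sum_univ_four]
          simp only [Fin.reduceFinMk, Matrix.of_apply, Matrix.cons_val', Matrix.cons_val_zero,
            Matrix.cons_val_one, Matrix.cons_val]
          push_cast
          rw [huv, abs_le]
          constructor <;> nlinarith [mul_pos hu hv]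
        · simp [pow_add]
    · simp only [Fin.prod_univ_four, Matrix.cons_val_zero, Matrix.cons_val_one, Matrix.cons_val]
      push_cast
      have : 0 < (b : ℝ) ^ m * (b : ℝ) ^ (k m + m) * (b : ℝ) ^ (k m + m + m) := by positivity
      nlinarith

include H hb hU hα aα aβ hk in
/-- Second use: a relation without the first coordinate gives one with it. -/
theorem step2 (δ : ℝ) (hδ : 0 < δ)
    (hg : ∀ᶠ m : ℕ in (U : Filter ℕ), 2 * Real.exp (δ * m) ≤
      ((Int.gcd (⌊α * (b : ℝ) ^ (k m + m)⌋ * ⌊β * (b : ℝ) ^ m⌋ + 1) ((b : ℤ) ^ m) : ℕ) : ℝ))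
    (a1 a2 a3 : ℤ) (ha2 : a2 ≠ 0)
    (hrel : ∀ᶠ m : ℕ in (U : Filter ℕ),
        a1 * (⌊α * (b : ℝ) ^ (k m + m)⌋ * (b : ℤ) ^ m) +
        a2 * (⌊β * (b : ℝ) ^ m⌋ * (b : ℤ) ^ (k m + m)) +
        a3 * ((b : ℤ) ^ (k m + m) * (b : ℤ) ^ m) = 0) :
    ∃ b0 b1 b3 : ℤ, b0 ≠ 0 ∧ ∀ᶠ m : ℕ in (U : Filter ℕ),
      b0 * (⌊α * (b : ℝ) ^ (k m + m)⌋ * ⌊β * (b : ℝ) ^ m⌋ + 1) +
        b1 * (⌊α * (b : ℝ) ^ (k m + m)⌋ * (b : ℤ) ^ m) +
        0 * (⌊β * (b : ℝ) ^ m⌋ * (b : ℤ) ^ (k m + m)) +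
        b3 * ((b : ℤ) ^ (k m + m) * (b : ℤ) ^ m) = 0 := by
  have ha2' : (a2 : ℝ) ≠ 0 := by exact_mod_cast ha2
  have q1 : IsAlgebraic ℚ ((a1 : ℝ) / a2) := by
    simpa using isAlgebraic_ratCast ℚ (A := ℝ) ((a1 : ℚ) / a2)
  have q3 : IsAlgebraic ℚ ((a3 : ℝ) / a2) := by
    simpa using isAlgebraic_ratCast ℚ (A := ℝ) ((a3 : ℚ) / a2)
  refine Exists.elim (seq_pow H 3 b N
    !![1, α * (a1 / a2) - β, α * (a3 / a2) + α * β; 0, 1, -α; 0, 0, 1] δ hb ?_ ?_ hδ U hU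
    (fun m => ![⌊α * (b : ℝ) ^ (k m + m)⌋ * ⌊β * (b : ℝ) ^ m⌋ + 1,
      ⌊α * (b : ℝ) ^ (k m + m)⌋ * (b : ℤ) ^ m, (b : ℤ) ^ (k m + m) * (b : ℤ) ^ m])
    (fun m => ![2, (b : ℝ) ^ m, (b : ℝ) ^ (k m + m + m)])
    (fun m => ![Int.gcd (⌊α * (b : ℝ) ^ (k m + m)⌋ * ⌊β * (b : ℝ) ^ m⌋ + 1) ((b : ℤ) ^ m),
      b ^ m, b ^ (k m + m + m)]) ?_) fun w hh => ?_
  rotate_right
  · obtain ⟨hw0, hw⟩ := hh
    refine ⟨w 0, w 1, w 2, fun h0 => hw0 ?_, ?_⟩
    · have := no_rel hb U hU hα k (w 1) (w 2) (by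
        filter_upwards [hw] with m hm
        simp only [Fin.sum_univ_three, Matrix.cons_val_zero, Matrix.cons_val_one,
          Matrix.cons_val, h0, zero_mul, zero_add] at hm
        have hv : (b : ℤ) ^ m ≠ 0 := pow_ne_zero _ (by omega)
        apply mul_right_cancel₀ hv
        linear_combination hm)
      funext i
      fin_cases i
      exacts [h0, this.1, this.2]
    · filter_upwards [hw] with m hm
      simpa [Fin.sum_univ_three] using hm
  · intro i j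
    fin_cases i <;> fin_cases j <;>
      first
        | exact isAlgebraic_one
        | exact isAlgebraic_zero
        | exact aα.neg
        | exact (aα.mul q1).sub aβ
        | exact (aα.mul q3).add (aα.mul aβ)
  · simp [Matrix.det_fin_three]
  · filter_upwards [hk, hg, hrel] with m hm hgm hr
    obtain ⟨hm1, hm2⟩ := hm
    have hb0 : (0 : ℝ) < b := by exact_mod_cast (by omega : 0 < b)
    have hs0 := Int.fract_nonneg (α * (b : ℝ) ^ (k m + m))
    have hs1 := (Int.fract_lt_one (α * (b : ℝ) ^ (k m + m))).le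
    have ht0 := Int.fract_nonneg (β * (b : ℝ) ^ m)
    have ht1 := (Int.fract_lt_one (β * (b : ℝ) ^ m)).le
    have ex : ((⌊α * (b : ℝ) ^ (k m + m)⌋ : ℤ) : ℝ) =
        α * (b : ℝ) ^ (k m + m) - Int.fract (α * (b : ℝ) ^ (k m + m)) := by rw [Int.fract]; ring
    have ey : ((⌊β * (b : ℝ) ^ m⌋ : ℤ) : ℝ) =
        β * (b : ℝ) ^ m - Int.fract (β * (b : ℝ) ^ m) := by rw [Int.fract]; ring
    have hu : (0 : ℝ) < (b : ℝ) ^ (k m + m) := by positivity
    have hv : (0 : ℝ) < (b : ℝ) ^ m := by positivity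
    have huv : (b : ℝ) ^ (k m + m + m) = (b : ℝ) ^ (k m + m) * (b : ℝ) ^ m := pow_add _ _ _
    have hr' : (a1 : ℝ) * ((⌊α * (b : ℝ) ^ (k m + m)⌋ : ℤ) * (b : ℝ) ^ m) +
        a2 * ((⌊β * (b : ℝ) ^ m⌋ : ℤ) * (b : ℝ) ^ (k m + m)) +
        a3 * ((b : ℝ) ^ (k m + m) * (b : ℝ) ^ m) = 0 := by exact_mod_cast hr
    constructor
    · intro i
      fin_cases i
      · refine ⟨?_, (two_bounds hb (by omega)).1, (two_bounds hb (by omega)).2,
          Int.gcd_dvd_left _ _, ?_⟩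
        · simp only [Fin.sum_univ_three]
          simp only [Fin.zero_eta, Matrix.of_apply, Matrix.cons_val', Matrix.cons_val_zero,
            Matrix.cons_val_one, Matrix.cons_val]
          push_cast
          have key : 1 * (((⌊α * (b : ℝ) ^ (k m + m)⌋ : ℤ) : ℝ) * (⌊β * (b : ℝ) ^ m⌋ : ℤ) + 1) +
              (α * (a1 / a2) - β) * ((⌊α * (b : ℝ) ^ (k m + m)⌋ : ℤ) * (b : ℝ) ^ m) +
              (α * (a3 / a2) + α * β) * ((b : ℝ) ^ (k m + m) * (b : ℝ) ^ m) =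
              (α * (b : ℝ) ^ (k m + m) - (⌊α * (b : ℝ) ^ (k m + m)⌋ : ℤ)) *
                (β * (b : ℝ) ^ m - (⌊β * (b : ℝ) ^ m⌋ : ℤ)) + 1 := by
            field_simp
            linear_combination α * hr'
          rw [key]
          change |Int.fract (α * (b : ℝ) ^ (k m + m)) * Int.fract (β * (b : ℝ) ^ m) + 1| ≤ 2
          have h1 := mul_le_one₀ hs1 ht0 ht1
          have h2 := mul_nonneg hs0 ht0
          rw [abs_le]
          constructor <;> linarith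
        · have h1 : ((Int.gcd (⌊α * (b : ℝ) ^ (k m + m)⌋ * ⌊β * (b : ℝ) ^ m⌋ + 1)
              ((b : ℤ) ^ m) : ℕ) : ℤ) ∣ ((b ^ m : ℕ) : ℤ) := by
            push_cast
            exact Int.gcd_dvd_right _ _
          exact (Int.natCast_dvd_natCast.mp h1).trans (pow_dvd_pow _ (by omega))
      · refine ⟨?_, (pw_bounds hb (by omega)).1, (pw_bounds hb (by omega)).2, ?_,
          pow_dvd_pow _ (by omega)⟩
        · simp only [Fin.sum_univ_three]
          simp only [Fin.mk_one, Matrix.of_apply, Matrix.cons_val', Matrix.cons_val_zero,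
            Matrix.cons_val_one, Matrix.cons_val]
          push_cast
          rw [ex]
          set s := Int.fract (α * (b : ℝ) ^ (k m + m))
          rw [abs_le]
          constructor <;> nlinarith
        · simp
      · refine ⟨?_, (pw_bounds hb (by omega)).1, (pw_bounds hb (by omega)).2, ?_,
          pow_dvd_pow _ (by omega)⟩
        · simp only [Fin.sum_univ_three]
          simp only [Fin.reduceFinMk, Matrix.of_apply, Matrix.cons_val', Matrix.cons_val_zero,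
            Matrix.cons_val_one, Matrix.cons_val]
          push_cast
          rw [huv, abs_le]
          constructor <;> nlinarith [mul_pos hu hv]
        · simp [pow_add]
    · simp only [Fin.prod_univ_three, Matrix.cons_val_zero, Matrix.cons_val_one, Matrix.cons_val]
      push_cast
      have : 0 < (b : ℝ) ^ m * (b : ℝ) ^ (k m + m + m) := by positivity
      nlinarith

include H hb hU hα aα hk in
/-- Fourth use (Ridout's theorem): the fractional parts are not as small as `C / b ^ m`. -/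
theorem step4 (C : ℝ) (hC : 1 ≤ C)
    (h : ∀ᶠ m : ℕ in (U : Filter ℕ), Int.fract (α * (b : ℝ) ^ (k m + m)) ≤ C / (b : ℝ) ^ m) :
    False := by
  refine Exists.elim (seq_pow H 2 b N !![1, -α; 0, 1] (1 / 2) hb ?_ ?_ (by norm_num) U hU
    (fun m => ![⌊α * (b : ℝ) ^ (k m + m)⌋, (b : ℤ) ^ (k m + m)])
    (fun m => ![C / (b : ℝ) ^ m, (b : ℝ) ^ (k m + m)])
    (fun m => ![1, b ^ (k m + m)]) ?_) fun w hh => ?_
  rotate_right
  · obtain ⟨hw0, hw⟩ := hh
    have := no_rel hb U hU hα k (w 0) (w 1) (by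
      filter_upwards [hw] with m hm
      simpa [Fin.sum_univ_two] using hm)
    apply hw0
    funext i
    fin_cases i
    exacts [this.1, this.2]
  · intro i j
    fin_cases i <;> fin_cases j <;>
      first
        | exact isAlgebraic_one
        | exact isAlgebraic_zero
        | exact aα.neg
  · simp [Matrix.det_fin_two]
  · filter_upwards [hk, h, hU (ev_half hb C)] with m hm hs hC'
    obtain ⟨hm1, hm2⟩ := hm
    have hC' : C * Real.exp (1 / 2 * m) ≤ (b : ℝ) ^ m := hC'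
    have hb0 : (0 : ℝ) < b := by exact_mod_cast (by omega : 0 < b)
    have hs0 := Int.fract_nonneg (α * (b : ℝ) ^ (k m + m))
    have ex : ((⌊α * (b : ℝ) ^ (k m + m)⌋ : ℤ) : ℝ) =
        α * (b : ℝ) ^ (k m + m) - Int.fract (α * (b : ℝ) ^ (k m + m)) := by rw [Int.fract]; ring
    have hu : (0 : ℝ) < (b : ℝ) ^ (k m + m) := by positivity
    have hv : (0 : ℝ) < (b : ℝ) ^ m := by positivity
    constructor
    · intro i
      fin_cases i
      · refine ⟨?_, (small_bounds hb (by omega) hC hC').1, (small_bounds hb (by omega) hC hC').2,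
          by simp, by simp⟩
        simp only [Fin.sum_univ_two]
        simp only [Fin.zero_eta, Matrix.of_apply, Matrix.cons_val', Matrix.cons_val_zero,
          Matrix.cons_val_one]
        push_cast
        rw [ex, abs_le]
        constructor <;> linarith
      · refine ⟨?_, (pw_bounds hb (by omega)).1, (pw_bounds hb (by omega)).2, by simp,
          pow_dvd_pow _ (by omega)⟩
        simp only [Fin.sum_univ_two]
        simp only [Fin.mk_one, Matrix.of_apply, Matrix.cons_val', Matrix.cons_val_zero,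
          Matrix.cons_val_one]
        push_cast
        rw [abs_le]
        constructor <;> linarith
    · simp only [Fin.prod_univ_two, Matrix.cons_val_zero, Matrix.cons_val_one]
      push_cast
      have : C / (b : ℝ) ^ m * Real.exp (1 / 2 * m) ≤ 1 := by
        rw [div_mul_eq_mul_div, div_le_one hv]; exact hC'
      nlinarith

include H hb hU hα aα aβ hk in
/-- Third use: a relation with nonzero first coefficient is impossible. -/
theorem step3 (a0 a1 a2 a3 : ℤ) (ha0 : a0 ≠ 0)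
    (hrel : ∀ᶠ m : ℕ in (U : Filter ℕ),
      a0 * (⌊α * (b : ℝ) ^ (k m + m)⌋ * ⌊β * (b : ℝ) ^ m⌋ + 1) +
        a1 * (⌊α * (b : ℝ) ^ (k m + m)⌋ * (b : ℤ) ^ m) +
        a2 * (⌊β * (b : ℝ) ^ m⌋ * (b : ℤ) ^ (k m + m)) +
        a3 * ((b : ℤ) ^ (k m + m) * (b : ℤ) ^ m) = 0) : False := by
  have hb0 : (0 : ℝ) < b := by exact_mod_cast (by omega : 0 < b)
  have hb1 : (1 : ℝ) ≤ b := by exact_mod_cast (by omega : 1 ≤ b)
  have ha0' : (1 : ℝ) ≤ |(a0 : ℝ)| := by exact_mod_cast Int.one_le_abs ha0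
  have ha0'' : (a0 : ℝ) ≠ 0 := by exact_mod_cast ha0
  set A : ℝ := a0 * α + a2 with hA
  set B : ℝ := a0 * β + a1 with hB
  have hA0 : A ≠ 0 := fun h => ha0 (irr_rel hα a0 a2 h).1
  have aA : IsAlgebraic ℚ A := ((isAlgebraic_intCast a0).mul aα).add (isAlgebraic_intCast a2)
  have aB : IsAlgebraic ℚ B := ((isAlgebraic_intCast a0).mul aβ).add (isAlgebraic_intCast a1)
  set s : ℕ → ℝ := fun m => Int.fract (α * (b : ℝ) ^ (k m + m)) with hs
  set t : ℕ → ℝ := fun m => Int.fract (β * (b : ℝ) ^ m) with ht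
  have hs0 : ∀ m, 0 ≤ s m := fun m => Int.fract_nonneg _
  have hs1 : ∀ m, s m ≤ 1 := fun m => (Int.fract_lt_one _).le
  have ht0 : ∀ m, 0 ≤ t m := fun m => Int.fract_nonneg _
  have ht1 : ∀ m, t m ≤ 1 := fun m => (Int.fract_lt_one _).le
  have ex : ∀ m, ((⌊α * (b : ℝ) ^ (k m + m)⌋ : ℤ) : ℝ) = α * (b : ℝ) ^ (k m + m) - s m :=
    fun m => by simp only [hs, Int.fract]; ring
  have ey : ∀ m, ((⌊β * (b : ℝ) ^ m⌋ : ℤ) : ℝ) = β * (b : ℝ) ^ m - t m :=
    fun m => by simp only [ht, Int.fract]; ring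
  have hst : ∀ m, 1 ≤ s m * t m + 1 ∧ s m * t m + 1 ≤ 2 := fun m =>
    ⟨by linarith [mul_nonneg (hs0 m) (ht0 m)],
      by linarith [mul_le_one₀ (hs1 m) (ht0 m) (ht1 m)]⟩
  have hw1 : ∀ m, (1 : ℝ) ≤ (b : ℝ) ^ k m := fun m => one_le_pow₀ hb1
  have hv1 : ∀ m : ℕ, (1 : ℝ) ≤ (b : ℝ) ^ m := fun m => one_le_pow₀ hb1
  set r : ℝ := a0 * α * β + a1 * α + a2 * β + a3 with hr
  have h1 : ∀ᶠ m : ℕ in (U : Filter ℕ), r * ((b : ℝ) ^ k m * (b : ℝ) ^ m * (b : ℝ) ^ m) =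
      A * ((b : ℝ) ^ k m * (b : ℝ) ^ m) * t m + B * (b : ℝ) ^ m * s m - a0 * (s m * t m + 1) := by
    filter_upwards [hrel] with m hm
    have hm' : (a0 : ℝ) * ((⌊α * (b : ℝ) ^ (k m + m)⌋ : ℤ) * (⌊β * (b : ℝ) ^ m⌋ : ℤ) + 1) +
        a1 * ((⌊α * (b : ℝ) ^ (k m + m)⌋ : ℤ) * (b : ℝ) ^ m) +
        a2 * ((⌊β * (b : ℝ) ^ m⌋ : ℤ) * (b : ℝ) ^ (k m + m)) +
        a3 * ((b : ℝ) ^ (k m + m) * (b : ℝ) ^ m) = 0 := by exact_mod_cast hm
    rw [ex, ey, pow_add] at hm'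
    rw [hr, hA, hB]
    linear_combination hm'
  have hr0 : r = 0 := by
    refine zero_of_small hb U hU r (|A| + |B| + 2 * |(a0 : ℝ)|) ?_
    filter_upwards [h1] with m hm
    have hw := hw1 m
    have hv := hv1 m
    have hu : (1 : ℝ) ≤ (b : ℝ) ^ k m * (b : ℝ) ^ m := one_le_mul_of_one_le_of_one_le hw hv
    have e1 : |A * ((b : ℝ) ^ k m * (b : ℝ) ^ m) * t m| ≤ |A| * ((b : ℝ) ^ k m * (b : ℝ) ^ m) := by
      rw [abs_mul, abs_mul, abs_of_nonneg (ht0 m), abs_of_nonneg (by linarith : (0 : ℝ) ≤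
        (b : ℝ) ^ k m * (b : ℝ) ^ m)]
      exact mul_le_of_le_one_right (by positivity) (ht1 m)
    have e2 : |B * (b : ℝ) ^ m * s m| ≤ |B| * ((b : ℝ) ^ k m * (b : ℝ) ^ m) := by
      rw [abs_mul, abs_mul, abs_of_nonneg (hs0 m), abs_of_nonneg (by linarith : (0 : ℝ) ≤
        (b : ℝ) ^ m)]
      refine (mul_le_of_le_one_right (by positivity) (hs1 m)).trans ?_
      exact mul_le_mul_of_nonneg_left (le_mul_of_one_le_left (by linarith) hw) (abs_nonneg _)
    have e3 : |(a0 : ℝ) * (s m * t m + 1)| ≤ 2 * |(a0 : ℝ)| * ((b : ℝ) ^ k m * (b : ℝ) ^ m) := by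
      rw [abs_mul, abs_of_nonneg (by linarith [(hst m).1] : (0 : ℝ) ≤ s m * t m + 1)]
      have := (hst m).2
      nlinarith
    have e4 : |r| * (b : ℝ) ^ m * ((b : ℝ) ^ k m * (b : ℝ) ^ m) ≤
        (|A| + |B| + 2 * |(a0 : ℝ)|) * ((b : ℝ) ^ k m * (b : ℝ) ^ m) := by
      have e5 : |r| * (b : ℝ) ^ m * ((b : ℝ) ^ k m * (b : ℝ) ^ m) =
          |r * ((b : ℝ) ^ k m * (b : ℝ) ^ m * (b : ℝ) ^ m)| := by
        rw [abs_mul, abs_of_nonneg (by positivity : (0 : ℝ) ≤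
          (b : ℝ) ^ k m * (b : ℝ) ^ m * (b : ℝ) ^ m)]
        ring
      rw [e5, hm]
      have := abs_sub (A * ((b : ℝ) ^ k m * (b : ℝ) ^ m) * t m + B * (b : ℝ) ^ m * s m)
        (a0 * (s m * t m + 1))
      have := abs_add_le (A * ((b : ℝ) ^ k m * (b : ℝ) ^ m) * t m) (B * (b : ℝ) ^ m * s m)
      linarith
    exact le_of_mul_le_mul_right e4 (by linarith)
  have h2 : ∀ᶠ m : ℕ in (U : Filter ℕ),
      (A * (b : ℝ) ^ k m * t m + B * s m) * (b : ℝ) ^ m = a0 * (s m * t m + 1) := by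
    filter_upwards [h1] with m hm
    rw [hr0] at hm
    linear_combination -hm
  refine Exists.elim (seq_pow H 3 b N
    !![-B, -A, B * α + A * β; 1, 0, -α; 0, 0, 1] (1 / 2) hb ?_ ?_ (by norm_num) U hU
    (fun m => ![⌊α * (b : ℝ) ^ (k m + m)⌋, ⌊β * (b : ℝ) ^ m⌋ * (b : ℤ) ^ k m,
      (b : ℤ) ^ (k m + m)])
    (fun m => ![2 * |(a0 : ℝ)| / (b : ℝ) ^ m, 1, (b : ℝ) ^ (k m + m)])
    (fun m => ![1, 1, b ^ (k m + m)]) ?_) fun c hh => ?_
  rotate_right
  · obtain ⟨hc0, hc⟩ := hh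
    set ρ : ℝ := c 0 * α + c 1 * β + c 2 with hρ
    have h3 : ∀ᶠ m : ℕ in (U : Filter ℕ), ρ * ((b : ℝ) ^ k m * (b : ℝ) ^ m) =
        c 0 * s m + c 1 * (b : ℝ) ^ k m * t m := by
      filter_upwards [hc] with m hm
      simp only [Fin.sum_univ_three, Matrix.cons_val_zero, Matrix.cons_val_one,
        Matrix.cons_val] at hm
      have hm' : (c 0 : ℝ) * (⌊α * (b : ℝ) ^ (k m + m)⌋ : ℤ) +
          c 1 * ((⌊β * (b : ℝ) ^ m⌋ : ℤ) * (b : ℝ) ^ k m) + c 2 * (b : ℝ) ^ (k m + m) = 0 := by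
        exact_mod_cast hm
      rw [ex, ey, pow_add] at hm'
      rw [hρ]
      linear_combination hm'
    have hρ0 : ρ = 0 := by
      refine zero_of_small hb U hU ρ (|(c 0 : ℝ)| + |(c 1 : ℝ)|) ?_
      filter_upwards [h3] with m hm
      have hw := hw1 m
      have hv := hv1 m
      have e1 : |(c 0 : ℝ) * s m| ≤ |(c 0 : ℝ)| * (b : ℝ) ^ k m := by
        rw [abs_mul, abs_of_nonneg (hs0 m)]
        exact mul_le_mul_of_nonneg_left ((hs1 m).trans hw) (abs_nonneg _)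
      have e2 : |(c 1 : ℝ) * (b : ℝ) ^ k m * t m| ≤ |(c 1 : ℝ)| * (b : ℝ) ^ k m := by
        rw [abs_mul, abs_mul, abs_of_nonneg (ht0 m), abs_of_nonneg (by linarith : (0 : ℝ) ≤
          (b : ℝ) ^ k m)]
        exact mul_le_of_le_one_right (by positivity) (ht1 m)
      have e4 : |ρ| * (b : ℝ) ^ m * (b : ℝ) ^ k m ≤
          (|(c 0 : ℝ)| + |(c 1 : ℝ)|) * (b : ℝ) ^ k m := by
        have e5 : |ρ| * (b : ℝ) ^ m * (b : ℝ) ^ k m = |ρ * ((b : ℝ) ^ k m * (b : ℝ) ^ m)| := by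
          rw [abs_mul, abs_of_nonneg (by positivity : (0 : ℝ) ≤ (b : ℝ) ^ k m * (b : ℝ) ^ m)]
          ring
        rw [e5, hm]
        have := abs_add_le ((c 0 : ℝ) * s m) ((c 1 : ℝ) * (b : ℝ) ^ k m * t m)
        linarith
      exact le_of_mul_le_mul_right e4 (by linarith)
    have hc1 : c 1 ≠ 0 := by
      intro h
      have := irr_rel hα (c 0) (c 2) (by rw [← hρ0, hρ, h]; simp)
      apply hc0
      funext i
      fin_cases i
      exacts [this.1, h, this.2]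
    have hc1' : (c 1 : ℝ) ≠ 0 := by exact_mod_cast hc1
    set γ : ℝ := B - A * c 0 / c 1 with hγ
    have h4 : ∀ᶠ m : ℕ in (U : Filter ℕ), γ * s m * (b : ℝ) ^ m = a0 * (s m * t m + 1) := by
      filter_upwards [h2, h3] with m hm2 hm3
      rw [hρ0] at hm3
      rw [← hm2, hγ]
      congr 1
      field_simp
      linear_combination A * hm3
    have hγ0 : γ ≠ 0 := by
      intro h
      obtain ⟨m, hm⟩ := h4.exists
      rw [h, zero_mul, zero_mul] at hm
      have := (hst m).1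
      exact mul_ne_zero ha0'' (by linarith) hm.symm
    have hγ' : 0 < |γ| := abs_pos.mpr hγ0
    refine step4 H hb U hU hα aα k N hk (2 * |(a0 : ℝ)| / |γ| + 1) ?_ ?_
    · have : 0 ≤ 2 * |(a0 : ℝ)| / |γ| := by positivity
      linarith
    · filter_upwards [h4] with m hm
      have hv := hv1 m
      change s m ≤ _
      rw [le_div_iff₀ (by linarith)]
      refine le_trans ?_ (le_add_of_nonneg_right zero_le_one)
      rw [le_div_iff₀ hγ']
      have e1 : s m * (b : ℝ) ^ m * |γ| = |γ * s m * (b : ℝ) ^ m| := by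
        rw [abs_mul, abs_mul, abs_of_nonneg (hs0 m), abs_of_nonneg (by linarith : (0 : ℝ) ≤
          (b : ℝ) ^ m)]
        ring
      rw [e1, hm, abs_mul, abs_of_nonneg (by linarith [(hst m).1] : (0 : ℝ) ≤ s m * t m + 1)]
      have := (hst m).2
      nlinarith
  · intro i j
    fin_cases i <;> fin_cases j <;>
      first
        | exact isAlgebraic_one
        | exact isAlgebraic_zero
        | exact aα.neg
        | exact aA.neg
        | exact aB.neg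
        | exact (aB.mul aα).add (aA.mul aβ)
  · simp [Matrix.det_fin_three, hA0]
  · filter_upwards [hk, h2, hU (ev_half hb (2 * |(a0 : ℝ)|))] with m hm hm2 hC'
    obtain ⟨hm1, hm3⟩ := hm
    have hC' : 2 * |(a0 : ℝ)| * Real.exp (1 / 2 * m) ≤ (b : ℝ) ^ m := hC'
    have hC : (1 : ℝ) ≤ 2 * |(a0 : ℝ)| := by linarith
    have hu : (0 : ℝ) < (b : ℝ) ^ (k m + m) := by positivity
    have hv : (0 : ℝ) < (b : ℝ) ^ m := by positivity
    constructor
    · intro i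
      fin_cases i
      · refine ⟨?_, (small_bounds hb (by omega) hC hC').1, (small_bounds hb (by omega) hC hC').2,
          by simp, by simp⟩
        simp only [Fin.sum_univ_three]
        simp only [Fin.zero_eta, Matrix.of_apply, Matrix.cons_val', Matrix.cons_val_zero,
          Matrix.cons_val_one, Matrix.cons_val]
        push_cast
        have key : -B * ((⌊α * (b : ℝ) ^ (k m + m)⌋ : ℤ) : ℝ) +
            -A * ((⌊β * (b : ℝ) ^ m⌋ : ℤ) * (b : ℝ) ^ k m) +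
            (B * α + A * β) * (b : ℝ) ^ (k m + m) = a0 * (s m * t m + 1) / (b : ℝ) ^ m := by
          rw [← hm2, ex, ey, pow_add]
          field_simp
          ring
        rw [key, abs_div, abs_of_pos hv, abs_mul,
          abs_of_nonneg (by linarith [(hst m).1] : (0 : ℝ) ≤ s m * t m + 1)]
        refine div_le_div_of_nonneg_right ?_ hv.le
        have := (hst m).2
        nlinarith
      · refine ⟨?_, by simpa using (pw_bounds hb (Nat.zero_le (N * m))).1,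
          by simpa using (pw_bounds hb (Nat.zero_le (N * m))).2, by simp, by simp⟩
        simp only [Fin.sum_univ_three]
        simp only [Fin.mk_one, Matrix.of_apply, Matrix.cons_val', Matrix.cons_val_zero,
          Matrix.cons_val_one, Matrix.cons_val]
        push_cast
        rw [ex, abs_le]
        constructor <;> linarith [hs0 m, hs1 m]
      · refine ⟨?_, (pw_bounds hb (by omega)).1, (pw_bounds hb (by omega)).2, by simp,
          pow_dvd_pow _ (by omega)⟩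
        simp only [Fin.sum_univ_three]
        simp only [Fin.reduceFinMk, Matrix.of_apply, Matrix.cons_val', Matrix.cons_val_zero,
          Matrix.cons_val_one, Matrix.cons_val]
        push_cast
        rw [abs_le]
        constructor <;> linarith
    · simp only [Fin.prod_univ_three, Matrix.cons_val_zero, Matrix.cons_val_one, Matrix.cons_val]
      push_cast
      have : 2 * |(a0 : ℝ)| / (b : ℝ) ^ m * Real.exp (1 / 2 * m) ≤ 1 := by
        rw [div_mul_eq_mul_div, div_le_one hv]; exact hC'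
      nlinarith

end main

/-- The application; the irrationality of `β` is not needed. -/
theorem final_gen (H : SeqStmt) (b : ℕ) (hb : 2 ≤ b) (α β : ℝ) (hα : Irrational α)
    (aα : IsAlgebraic ℚ α) (aβ : IsAlgebraic ℚ β) (ε : ℝ) (hε : 0 < ε) (k0 L : ℕ) :
    ∃ M : ℕ, ∀ m : ℕ, M ≤ m → ∀ k : ℕ, k ≤ k0 + L * m →
      ((Int.gcd (⌊α * (b : ℝ) ^ (k + m)⌋ * ⌊β * (b : ℝ) ^ m⌋ + 1) ((b : ℤ) ^ m) : ℕ) : ℝ) <
        (b : ℝ) ^ (ε * m) := by
  classical
  by_contra hcon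
  push Not at hcon
  set S : Set ℕ := {m | ∃ k : ℕ, k ≤ k0 + L * m ∧ (b : ℝ) ^ (ε * m) ≤
    ((Int.gcd (⌊α * (b : ℝ) ^ (k + m)⌋ * ⌊β * (b : ℝ) ^ m⌋ + 1) ((b : ℤ) ^ m) : ℕ) : ℝ)} with hS
  have hfr : ∃ᶠ m in atTop, m ∈ S := by
    rw [frequently_atTop]
    intro M
    obtain ⟨m, hm, k, hk, hg⟩ := hcon M
    exact ⟨m, hm, k, hk, hg⟩
  have hne : (atTop ⊓ 𝓟 S).NeBot := frequently_mem_iff_neBot.mp hfr
  obtain ⟨U, hU'⟩ := exists_ultrafilter_le (atTop ⊓ 𝓟 S)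
  have hU : (U : Filter ℕ) ≤ atTop := hU'.trans inf_le_left
  have hUS : ∀ᶠ m in (U : Filter ℕ), m ∈ S := (hU'.trans inf_le_right) (mem_principal_self S)
  have hch : ∀ m, ∃ k : ℕ, m ∈ S → k ≤ k0 + L * m ∧ (b : ℝ) ^ (ε * m) ≤
      ((Int.gcd (⌊α * (b : ℝ) ^ (k + m)⌋ * ⌊β * (b : ℝ) ^ m⌋ + 1) ((b : ℤ) ^ m) : ℕ) : ℝ) := by
    intro m
    by_cases h : m ∈ S
    · obtain ⟨k, hk⟩ := h
      exact ⟨k, fun _ => hk⟩
    · exact ⟨0, fun h' => absurd h' h⟩
  choose k hk using hch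
  have hb1 : (1 : ℝ) < b := by exact_mod_cast (by omega : 1 < b)
  have hkN : ∀ᶠ m : ℕ in (U : Filter ℕ), 1 ≤ m ∧ k m + 2 * m ≤ (k0 + L + 2) * m := by
    filter_upwards [hUS, hU (eventually_ge_atTop 1)] with m hm h1
    have h1 : 1 ≤ m := h1
    have := (hk m hm).1
    refine ⟨h1, ?_⟩
    nlinarith
  have hlog : 0 < ε * Real.log b := mul_pos hε (Real.log_pos hb1)
  have hg : ∀ᶠ m : ℕ in (U : Filter ℕ), 2 * Real.exp (ε * Real.log b / 2 * m) ≤
      ((Int.gcd (⌊α * (b : ℝ) ^ (k m + m)⌋ * ⌊β * (b : ℝ) ^ m⌋ + 1) ((b : ℤ) ^ m) : ℕ) : ℝ) := by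
    filter_upwards [hUS, hU (ev_exp 2 (ε * Real.log b / 2) (Real.exp (ε * Real.log b))
      (Real.exp_lt_exp.mpr (by linarith)))] with m hm h1
    have h1 : 2 * Real.exp (ε * Real.log b / 2 * m) ≤ Real.exp (ε * Real.log b) ^ m := h1
    refine h1.trans (le_trans (le_of_eq ?_) (hk m hm).2)
    rw [Real.rpow_def_of_pos (by linarith), ← Real.exp_nat_mul]
    congr 1
    ring
  obtain ⟨a0, a1, a2, a3, ha, hrel⟩ := step1 H hb U hU aα aβ k _ hkN _ (by linarith) hg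
  by_cases h0 : a0 = 0
  · have hrel' : ∀ᶠ m : ℕ in (U : Filter ℕ),
        a1 * (⌊α * (b : ℝ) ^ (k m + m)⌋ * (b : ℤ) ^ m) +
        a2 * (⌊β * (b : ℝ) ^ m⌋ * (b : ℤ) ^ (k m + m)) +
        a3 * ((b : ℤ) ^ (k m + m) * (b : ℤ) ^ m) = 0 := by
      filter_upwards [hrel] with m hm
      rw [h0, zero_mul, zero_add] at hm
      exact hm
    have h2 : a2 ≠ 0 := by
      intro h2
      have := no_rel hb U hU hα k a1 a3 (by
        filter_upwards [hrel'] with m hm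
        rw [h2] at hm
        have hv : (b : ℤ) ^ m ≠ 0 := pow_ne_zero _ (by omega)
        apply mul_right_cancel₀ hv
        linear_combination hm)
      exact ha ⟨h0, this.1, h2, this.2⟩
    obtain ⟨b0, b1, b3, hb0, hrel2⟩ :=
      step2 H hb U hU hα aα aβ k _ hkN _ (by linarith) hg a1 a2 a3 h2 hrel'
    exact step3 H hb U hU hα aα aβ k _ hkN b0 b1 0 b3 hb0 hrel2
  · exact step3 H hb U hU hα aα aβ k _ hkN a0 a1 a2 a3 h0 hrel

theorem final_of (H : SeqStmt) : FinalStmt :=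
  fun b hb α β hα _ aα aβ ε hε k0 L => final_gen H b hb α β hα aα aβ ε hε k0 L

end Pool.Agent.MP_077ac3_nt.H88
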